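import Pool.Agent.KK.StmtsW

/-!
# Squad KKB, rows PUP and PDN: far flips upwards and downwards
-/

set_option autoImplicit false

namespace Pool.Agent.KK.H60W

/-! ### elementary facts on `wt` and `per` -/

theorem wt_append (u v : List Bool) : wt (u ++ v) = wt u + wt v := List.count_append ..

theorem wt_cons (b : Bool) (v : List Bool) : wt (b :: v) = wt [b] + wt v := by
  rw [← wt_append]; rfl

theorem wt_true : wt [true] = 1 := rfl

theorem wt_false : wt [false] = 0 := rfl

theorem wt_reverse (u : List Bool) : wt u.reverse = wt u := List.count_reverse ..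

theorem per_length (w : List Bool) (a m : ℕ) : (per w a m).length = m := by
  simp [per]

theorem per_add (w : List Bool) (a m m' : ℕ) :
    per w a (m + m') = per w a m ++ per w (a + m) m' := by
  unfold per
  rw [List.range_add, List.map_append, List.map_map]
  congr 1
  apply List.map_congr_left
  intro i _
  rw [Function.comp, Nat.add_assoc]

theorem per_one (w : List Bool) (a : ℕ) : per w a 1 = [w.getD (a % w.length) false] := by
  simp [per]

theorem per_succ (w : List Bool) (a m : ℕ) :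
    per w a (m + 1) = w.getD (a % w.length) false :: per w (a + 1) m := by
  rw [Nat.add_comm m 1, per_add, per_one]
  rfl

theorem per_congr {w w' : List Bool} {a b m : ℕ}
    (h : ∀ i < m, w.getD ((a + i) % w.length) false = w'.getD ((b + i) % w'.length) false) :
    per w a m = per w' b m := by
  unfold per
  apply List.map_congr_left
  intro i hi
  exact h i (List.mem_range.1 hi)

theorem per_period (w : List Bool) (a m : ℕ) : per w (a + w.length) m = per w a m := by
  apply per_congr
  intro i _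
  rw [show a + w.length + i = a + i + w.length by omega, Nat.add_mod_right]

theorem wt_per (w : List Bool) (a m : ℕ) :
    wt (per w a m) = ∑ i ∈ Finset.range m,
      (if w.getD ((a + i) % w.length) false = true then 1 else 0) := by
  induction m with
  | zero => simp [per, wt]
  | succ m ih =>
    rw [Finset.sum_range_succ, per_add, wt_append, ih, per_one]
    congr 1
    cases w.getD ((a + m) % w.length) false <;> simp [wt]

theorem per_zero_length (w : List Bool) : per w 0 w.length = w := by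
  apply List.ext_getElem
  · rw [per_length]
  · intro i h1 h2
    unfold per
    rw [List.getElem_map, List.getElem_range, Nat.zero_add, Nat.mod_eq_of_lt h2]
    exact List.getD_eq_getElem _ _ h2

theorem wt_full (w : List Bool) (a : ℕ) : wt (per w a w.length) = wt w := by
  induction a with
  | zero => rw [per_zero_length]
  | succ a ih =>
    have h1 : per w a (w.length + 1) = per w a w.length ++
        [w.getD ((a + w.length) % w.length) false] := by
      rw [per_add, per_one]
    have h2 := per_succ w a w.length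
    have h3 := congrArg wt (h1.symm.trans h2)
    rw [wt_append, wt_cons _ (per w (a + 1) w.length), Nat.add_mod_right] at h3
    omega

/-! ### the words of the gadget -/

/-- decomposition of the words before and after the gadget -/
theorem core (k : ℕ) (b : Bool) (U U' : List Bool) (c₁ c₂ : ℕ) (hU : U.length = k)
    (hU' : U'.length = k) (h1 : c₁ < k) (h2 : c₂ < k) (h12 : c₁ ≠ c₂)
    (hb1 : U.getD c₁ false = b) (hb2 : U.getD c₂ false = b)
    (hUU : ∀ i < k, U'.getD i false = if i = c₁ ∨ i = c₂ then !b else U.getD i false) :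
    ∃ d, 1 ≤ d ∧ d < k ∧ (c₁ + d) % k = c₂ ∧
      ∃ m₁ m₂ : List Bool, m₁.length = d - 1 ∧ m₂.length = k - 1 - d ∧
      m₂ = per U (c₁ + d + 1) (k - 1 - d) ∧
      (m₂ ++ b :: m₁ ++ [b]).tail = per U (c₁ + d + 2) (k - 1) ∧
      ((!b) :: m₁ ++ (!b) :: m₂).dropLast = per U' c₁ (k - 1) ∧
      wt U = wt m₁ + wt m₂ + 2 * wt [b] ∧ wt U' = wt m₁ + wt m₂ + 2 * wt [!b] := by
  obtain ⟨d, hd1, hdk, hd⟩ : ∃ d, 1 ≤ d ∧ d < k ∧ (c₁ + d) % k = c₂ := by
    rcases lt_or_gt_of_ne h12 with h | h
    · exact ⟨c₂ - c₁, by omega, by omega, by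
        rw [show c₁ + (c₂ - c₁) = c₂ by omega]; exact Nat.mod_eq_of_lt h2⟩
    · refine ⟨c₂ + k - c₁, by omega, by omega, ?_⟩
      rw [show c₁ + (c₂ + k - c₁) = c₂ + k by omega, Nat.add_mod_right]
      exact Nat.mod_eq_of_lt h2
  have hc1 : (c₁ % k) = c₁ := Nat.mod_eq_of_lt h1
  -- the letters other than `c₁`, `c₂`
  have hne : ∀ i, 1 ≤ i → i < k → i ≠ d → (c₁ + i) % k ≠ c₁ ∧ (c₁ + i) % k ≠ c₂ := by
    intro i hi1 hik hid
    constructor
    · intro h
      have h3 : (c₁ + i) % k = (c₁ + 0) % k := by rw [h, Nat.add_zero, hc1]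
      have h4 : i % k = 0 % k := Nat.ModEq.add_left_cancel' c₁ h3
      rw [Nat.mod_eq_of_lt hik, Nat.zero_mod] at h4
      omega
    · intro h
      have h3 : (c₁ + i) % k = (c₁ + d) % k := by rw [h, hd]
      have h4 : i % k = d % k := Nat.ModEq.add_left_cancel' c₁ h3
      rw [Nat.mod_eq_of_lt hik, Nat.mod_eq_of_lt hdk] at h4
      exact hid h4
  have hsame : ∀ i, 1 ≤ i → i < k → i ≠ d →
      U'.getD ((c₁ + i) % k) false = U.getD ((c₁ + i) % k) false := by
    intro i hi1 hik hid
    obtain ⟨h3, h4⟩ := hne i hi1 hik hid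
    rw [hUU _ (Nat.mod_lt _ (by omega)), if_neg]
    rintro (h | h)
    · exact h3 h
    · exact h4 h
  have e1 : per U' (c₁ + 1) (d - 1) = per U (c₁ + 1) (d - 1) := by
    apply per_congr
    intro i hi
    rw [hU, hU', show c₁ + 1 + i = c₁ + (1 + i) by omega]
    exact hsame (1 + i) (by omega) (by omega) (by omega)
  have e2 : per U' (c₁ + d + 1) (k - 1 - d) = per U (c₁ + d + 1) (k - 1 - d) := by
    apply per_congr
    intro i hi
    rw [hU, hU', show c₁ + d + 1 + i = c₁ + (d + 1 + i) by omega]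
    exact hsame (d + 1 + i) (by omega) (by omega) (by omega)
  have f1 : per U (c₁ + d + 1) k = per U (c₁ + d + 1) (k - 1 - d) ++ b :: per U (c₁ + 1) (d - 1) ++
      [b] := by
    have hk : k = (k - 1 - d) + (1 + ((d - 1) + 1)) := by omega
    have g1 : per U (c₁ + d + 1) k = per U (c₁ + d + 1) ((k - 1 - d) + (1 + ((d - 1) + 1))) := by
      rw [← hk]
    have p1 : per U (c₁ + k) 1 = [b] := by
      rw [per_one, hU, Nat.add_mod_right, hc1, hb1]
    have p2 : per U (c₁ + k + 1) (d - 1) = per U (c₁ + 1) (d - 1) := by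
      have := per_period U (c₁ + 1) (d - 1)
      rwa [hU, show c₁ + 1 + k = c₁ + k + 1 by omega] at this
    have p3 : per U (c₁ + k + 1 + (d - 1)) 1 = [b] := by
      rw [per_one, hU, show c₁ + k + 1 + (d - 1) = c₁ + d + k by omega, Nat.add_mod_right, hd, hb2]
    rw [g1, per_add, show c₁ + d + 1 + (k - 1 - d) = c₁ + k by omega, per_add, p1, per_add, p2, p3]
    simp
  have f2 : per U' c₁ k = (!b) :: per U (c₁ + 1) (d - 1) ++ (!b) ::
      per U (c₁ + d + 1) (k - 1 - d) := by
    have hk : k = 1 + ((d - 1) + (1 + (k - 1 - d))) := by omega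
    have g1 : per U' c₁ k = per U' c₁ (1 + ((d - 1) + (1 + (k - 1 - d)))) := by
      rw [← hk]
    have p1 : per U' c₁ 1 = [!b] := by
      rw [per_one, hU', hc1, hUU _ h1, if_pos (Or.inl rfl)]
    have p3 : per U' (c₁ + 1 + (d - 1)) 1 = [!b] := by
      rw [per_one, hU', show c₁ + 1 + (d - 1) = c₁ + d by omega, hd, hUU _ h2,
        if_pos (Or.inr rfl)]
    rw [g1, per_add, p1, per_add, e1, per_add, p3,
      show c₁ + 1 + (d - 1) + 1 = c₁ + d + 1 by omega, e2]
    simp
  refine ⟨d, hd1, hdk, hd, per U (c₁ + 1) (d - 1), per U (c₁ + d + 1) (k - 1 - d),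
    per_length .., per_length .., rfl, ?_, ?_, ?_, ?_⟩
  · rw [← f1]
    have hk : k = (k - 1) + 1 := by omega
    have g1 : per U (c₁ + d + 1) k = per U (c₁ + d + 1) ((k - 1) + 1) := by rw [← hk]
    rw [g1, per_succ]
    rfl
  · rw [← f2]
    have hk : k = (k - 1) + 1 := by omega
    have g1 : per U' c₁ k = per U' c₁ ((k - 1) + 1) := by rw [← hk]
    rw [g1, per_add, per_one, List.dropLast_concat]
  · have h3 := wt_full U (c₁ + d + 1)
    rw [hU, f1, wt_append, wt_append, wt_cons] at h3
    omega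
  · have h3 := wt_full U' c₁
    rw [hU', f2, wt_append, wt_cons, wt_cons (!b) (per U (c₁ + d + 1) (k - 1 - d))] at h3
    omega

/-- the plan of a far flip -/
theorem gen (hPER : PerStmt) (hTRA : TraStmt) (V : Type) [Fintype V] [DecidableEq V]
    (H : Finset (Finset V)) (X : Finset V) (k p : ℕ) (ε : ℝ) (K : ℕ) (b : Bool)
    (U U' : List Bool) (c₁ c₂ s : ℕ) (hU : U.length = k)
    (hU' : U'.length = k) (h1 : c₁ < k) (h2 : c₂ < k) (h12 : c₁ ≠ c₂)
    (hb1 : U.getD c₁ false = b) (hb2 : U.getD c₂ false = b)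
    (hUU : ∀ i < k, U'.getD i false = if i = c₁ ∨ i = c₂ then !b else U.getD i false)
    (hs : wt U = s + 2 * wt [b] ∨ wt U' = s + 2 * wt [!b])
    (hp : wt U % 2 = p ∨ wt U' % 2 = p)
    (hsup : ∀ m₁ m₂ : List Bool, m₁.length + m₂.length + 2 = k → wt m₁ + wt m₂ = s →
      Sup H X k ε K (m₂ ++ b :: m₁ ++ [b]).tail (m₂ ++ b :: m₁ ++ (!b) :: m₂)
        ((!b) :: m₁ ++ (!b) :: m₂).dropLast) :
    ∃ (d : ℕ) (m₂ : List Bool), 1 ≤ d ∧ d < k ∧ m₂ = per U (c₁ + d + 1) (k - 1 - d) ∧
      wt U = s + 2 * wt [b] ∧ wt U' = s + 2 * wt [!b] ∧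
      Pl V H X k p ε K (per U 0 (k - 1)) (per U' 0 (k - 1)) (4 * k)
        (wt (per U (k - 1) (c₁ + d + 2)) + (s + 1 + wt m₂) + wt (per U' c₁ (k - 1)) +
          wt (per U' (c₁ + k - 1) (k - c₁))) 1 := by
  obtain ⟨d, hd1, hdk, hd, m₁, m₂, l1, l2, hm2, ht, hdl, hwU, hwU'⟩ :=
    core k b U U' c₁ c₂ hU hU' h1 h2 h12 hb1 hb2 hUU
  have hs' : wt m₁ + wt m₂ = s := by rcases hs with h | h <;> omega
  have hb : wt [b] + wt [!b] = 1 := by cases b <;> rfl
  have hpU : wt U % 2 = p := by rcases hp with h | h <;> omega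
  have hpU' : wt U' % 2 = p := by rcases hp with h | h <;> omega
  refine ⟨d, m₂, hd1, hdk, hm2, by omega, by omega, ?_⟩
  have hS := hsup m₁ m₂ (by omega) hs'
  rw [ht, hdl] at hS
  have P1 := hPER V H X k p ε K U 0 (c₁ + d + 2) (by omega) hU hpU
  rw [Nat.zero_add, Nat.zero_add] at P1
  have hlc : (m₂ ++ b :: m₁ ++ (!b) :: m₂).length = 2 * k - 1 - d := by
    simp only [List.length_append, List.length_cons, l1, l2]
    omega
  have P2 := Pl.gadget _ _ _ _ _ (m₂ ++ b :: m₁ ++ (!b) :: m₂) (per U' c₁ (k - 1)) P1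
    (by rw [hlc]; omega) (by rw [hlc]; omega) (per_length ..) hS
  have P3 := hPER V H X k p ε K U' c₁ (k - c₁) (by omega) hU' hpU'
  have e1 : per U' (c₁ + (k - c₁)) (k - 1) = per U' 0 (k - 1) := by
    have := per_period U' 0 (k - 1)
    rw [hU', Nat.zero_add] at this
    rw [show c₁ + (k - c₁) = k by omega]
    exact this
  rw [e1] at P3
  have P := hTRA V H X k p ε K _ _ _ _ _ _ _ _ _ P2 P3
  have hwc : wt (m₂ ++ b :: m₁ ++ (!b) :: m₂) = s + 1 + wt m₂ := by
    rw [wt_append, wt_append, wt_cons, wt_cons (!b)]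
    omega
  rw [hwc, hlc] at P
  have hN : c₁ + d + 2 + (2 * k - 1 - d) + (k - 1) + (k - c₁) = 4 * k := by omega
  rw [hN] at P
  exact P

/-- the count for a flip upwards -/
theorem count_up (k : ℕ) (U U' : List Bool) (c₁ c₂ s d : ℕ) (hU : U.length = k)
    (hU' : U'.length = k) (h1 : c₁ < k) (h2 : c₂ < k) (h12 : c₁ ≠ c₂) (hd1 : 1 ≤ d) (hdk : d < k)
    (hb1 : U.getD c₁ false = false) (hb2 : U.getD c₂ false = false)
    (hUU : ∀ i < k, U'.getD i false = if i = c₁ ∨ i = c₂ then true else U.getD i false)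
    (hs : wt U = s) (hs' : wt U' = s + 2) :
    wt (per U (k - 1) (c₁ + d + 2)) + (s + 1 + wt (per U (c₁ + d + 1) (k - 1 - d))) +
      wt (per U' c₁ (k - 1)) + wt (per U' (c₁ + k - 1) (k - c₁)) =
    4 * s + 3 + (if c₁ + 1 < k then 1 else 0) + (if c₁ < c₂ ∧ c₂ + 1 < k then 1 else 0) := by
  have a1 : wt (per U (k - 1) (c₁ + d + 2)) + wt (per U (c₁ + d + 1) (k - 1 - d)) =
      wt (per U (k - 1) (c₁ + 1)) + s := by
    have g1 : per U (k - 1) ((c₁ + d + 2) + (k - 1 - d)) = per U (k - 1) ((c₁ + 1) + k) := by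
      rw [show (c₁ + d + 2) + (k - 1 - d) = (c₁ + 1) + k by omega]
    rw [per_add U (k - 1) (c₁ + d + 2) (k - 1 - d), per_add U (k - 1) (c₁ + 1) k] at g1
    have g2 : per U (k - 1 + (c₁ + d + 2)) (k - 1 - d) = per U (c₁ + d + 1) (k - 1 - d) := by
      have := per_period U (c₁ + d + 1) (k - 1 - d)
      rw [hU] at this
      rw [show k - 1 + (c₁ + d + 2) = c₁ + d + 1 + k by omega]
      exact this
    have g3 : wt (per U (k - 1 + (c₁ + 1)) k) = s := by
      have := wt_full U (k - 1 + (c₁ + 1))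
      rw [hU] at this
      rw [this, hs]
    rw [g2] at g1
    have g4 := congrArg wt g1
    rw [wt_append, wt_append, g3] at g4
    exact g4
  have a2 : wt (per U' c₁ (k - 1)) + wt (per U' (c₁ + k - 1) (k - c₁)) =
      s + 2 + wt (per U' c₁ (k - 1 - c₁)) := by
    have g1 : per U' c₁ ((k - 1) + (k - c₁)) = per U' c₁ (k + (k - 1 - c₁)) := by
      rw [show (k - 1) + (k - c₁) = k + (k - 1 - c₁) by omega]
    rw [per_add, per_add] at g1
    have g2 : per U' (c₁ + k) (k - 1 - c₁) = per U' c₁ (k - 1 - c₁) := by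
      have := per_period U' c₁ (k - 1 - c₁)
      rw [hU'] at this
      exact this
    have g3 : wt (per U' c₁ k) = s + 2 := by
      have := wt_full U' c₁
      rw [hU'] at this
      rw [this, hs']
    rw [g2, show c₁ + (k - 1) = c₁ + k - 1 by omega] at g1
    have g4 := congrArg wt g1
    rw [wt_append, wt_append, g3] at g4
    exact g4
  have a3 : wt (per U (k - 1) (c₁ + 1)) + wt (per U c₁ (k - 1 - c₁)) = s := by
    have g1 : per U (k - 1) ((c₁ + 1) + (k - 1 - c₁)) = per U (k - 1) k := by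
      rw [show (c₁ + 1) + (k - 1 - c₁) = k by omega]
    rw [per_add] at g1
    have g2 : per U (k - 1 + (c₁ + 1)) (k - 1 - c₁) = per U c₁ (k - 1 - c₁) := by
      have := per_period U c₁ (k - 1 - c₁)
      rw [hU] at this
      rw [show k - 1 + (c₁ + 1) = c₁ + k by omega]
      exact this
    have g3 : wt (per U (k - 1) k) = s := by
      have := wt_full U (k - 1)
      rw [hU] at this
      rw [this, hs]
    rw [g2] at g1
    have g4 := congrArg wt g1
    rw [wt_append, g3] at g4
    exact g4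
  have a4 : wt (per U' c₁ (k - 1 - c₁)) = wt (per U c₁ (k - 1 - c₁)) +
      (if c₁ + 1 < k then 1 else 0) + (if c₁ < c₂ ∧ c₂ + 1 < k then 1 else 0) := by
    rw [wt_per, wt_per]
    have g1 : ∀ i ∈ Finset.range (k - 1 - c₁),
        (if U'.getD ((c₁ + i) % U'.length) false = true then 1 else 0) =
          (if U.getD ((c₁ + i) % U.length) false = true then 1 else 0) +
            (if i = 0 then 1 else 0) + (if c₁ < c₂ ∧ i = c₂ - c₁ then 1 else 0) := by
      intro i hi
      rw [Finset.mem_range] at hi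
      rw [hU, hU', Nat.mod_eq_of_lt (by omega : c₁ + i < k), hUU _ (by omega)]
      by_cases h3 : i = 0
      · subst h3
        rw [Nat.add_zero, if_pos (Or.inl rfl), hb1, if_pos rfl, if_pos rfl,
          if_neg (by omega : ¬ (c₁ < c₂ ∧ 0 = c₂ - c₁))]
        simp
      · by_cases h4 : c₁ + i = c₂
        · rw [if_pos (Or.inr h4), h4, hb2, if_pos rfl, if_neg h3,
            if_pos (⟨by omega, by omega⟩ : c₁ < c₂ ∧ i = c₂ - c₁)]
          simp
        · rw [if_neg (by omega : ¬ (c₁ + i = c₁ ∨ c₁ + i = c₂)), if_neg h3,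
            if_neg (by omega : ¬ (c₁ < c₂ ∧ i = c₂ - c₁))]
          simp
    rw [Finset.sum_congr rfl g1, Finset.sum_add_distrib, Finset.sum_add_distrib]
    congr 1
    · congr 1
      rw [Finset.sum_ite_eq']
      by_cases h3 : c₁ + 1 < k
      · rw [if_pos h3, if_pos (Finset.mem_range.2 (by omega))]
      · rw [if_neg h3, if_neg (fun h => by rw [Finset.mem_range] at h; omega)]
    · by_cases h3 : c₁ < c₂
      · have g2 : ∀ i ∈ Finset.range (k - 1 - c₁),
            (if c₁ < c₂ ∧ i = c₂ - c₁ then 1 else 0) = if i = c₂ - c₁ then 1 else 0 := by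
          intro i _
          by_cases h4 : i = c₂ - c₁
          · rw [if_pos ⟨h3, h4⟩, if_pos h4]
          · rw [if_neg (fun h => h4 h.2), if_neg h4]
        rw [Finset.sum_congr rfl g2, Finset.sum_ite_eq']
        by_cases h4 : c₂ + 1 < k
        · rw [if_pos (Finset.mem_range.2 (by omega : c₂ - c₁ < k - 1 - c₁)), if_pos ⟨h3, h4⟩]
        · have h5 : c₂ - c₁ ∉ Finset.range (k - 1 - c₁) := by
            rw [Finset.mem_range]
            omega
          rw [if_neg h5, if_neg (fun h => h4 h.2)]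
      · rw [if_neg (fun h => h3 h.1)]
        apply Finset.sum_eq_zero
        intro i _
        rw [if_neg (fun h => h3 h.1)]
  omega

theorem getD_of_true {W : List Bool} {c : ℕ} (h : W.getD c true = false) :
    c < W.length ∧ W.getD c false = false := by
  by_cases hc : c < W.length
  · refine ⟨hc, ?_⟩
    rw [List.getD_eq_getElem _ _ hc] at h ⊢
    exact h
  · rw [List.getD_eq_default _ _ (by omega)] at h
    exact absurd h (by decide)

/-- the number of letters X of a plan -/
theorem pl_le {V : Type} [Fintype V] [DecidableEq V] {H : Finset (Finset V)} {X : Finset V}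
    {k p : ℕ} {ε : ℝ} {K : ℕ} {u v : List Bool} {N a q : ℕ} (h : Pl V H X k p ε K u v N a q) :
    a ≤ N := by
  have hw : ∀ w : List Bool, wt w ≤ w.length := fun w => List.count_le_length ..
  induction h with
  | nil hu => exact le_refl 0
  | letter v N a q b _ _ ih =>
    have := hw [b]
    rw [List.length_singleton] at this
    omega
  | gadget v N a q c uR _ _ _ h3 _ ih =>
    have h5 := hw c
    have h6 := hw uR
    omega

theorem pup (hPER : PerStmt) (hTRA : TraStmt) : PupStmt := by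
  intro V _ _ H X k p j ε K W W' c₁ c₂ hk hW hW' h1 h2 h12 hj hp hP hb1 hb2 hWW
  obtain ⟨-, hb1'⟩ := getD_of_true hb1
  obtain ⟨-, hb2'⟩ := getD_of_true hb2
  have hsup : ∀ m₁ m₂ : List Bool, m₁.length + m₂.length + 2 = k → wt m₁ + wt m₂ = wt W →
      Sup H X k ε K (m₂ ++ false :: m₁ ++ [false]).tail (m₂ ++ false :: m₁ ++ (!false) :: m₂)
        ((!false) :: m₁ ++ (!false) :: m₂).dropLast :=
    fun m₁ m₂ hl hw => hP m₁ m₂ hl (by omega)
  -- both orders of the classes
  have key : ∀ c c' : ℕ, c < k → c' < k → c ≠ c' → W.getD c false = false →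
      W.getD c' false = false →
      (∀ i < k, W'.getD i false = if i = c ∨ i = c' then true else W.getD i false) →
      Pl V H X k p ε K (per W 0 (k - 1)) (per W' 0 (k - 1)) (4 * k)
        (4 * wt W + 3 + (if c + 1 < k then 1 else 0) + (if c < c' ∧ c' + 1 < k then 1 else 0))
        1 := by
    intro c c' hc hc' hcc g1 g2 g3
    obtain ⟨d, m₂, hd1, hdk, hm2, hw1, hw2, hpl⟩ := gen hPER hTRA V H X k p ε K false W W' c c'
      (wt W) hW hW' hc hc' hcc g1 g2 g3 (Or.inl (by rw [wt_false, Nat.mul_zero, Nat.add_zero])) (Or.inl hp) hsup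
    rw [hm2, count_up k W W' c c' (wt W) d hW hW' hc hc' hcc hd1 hdk g1 g2 g3 rfl hw2] at hpl
    exact hpl
  have key' : ∀ c c' : ℕ, c < k → c' < k → c < c' → W.getD c false = false →
      W.getD c' false = false →
      (∀ i < k, W'.getD i false = if i = c ∨ i = c' then true else W.getD i false) →
      ∃ a : ℕ, a ≤ 4 * k ∧ Pl V H X k p ε K (per W 0 (k - 1)) (per W' 0 (k - 1)) (4 * k) a 1 ∧
      Pl V H X k p ε K (per W 0 (k - 1)) (per W' 0 (k - 1)) (4 * k) (a + 1) 1 := by
    intro c c' hc hc' hcc g1 g2 g3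
    have P1 := key c c' hc hc' (by omega) g1 g2 g3
    have P2 := key c' c hc' hc (by omega) g2 g1 (by
      intro i hi
      rw [g3 i hi]
      by_cases h : i = c ∨ i = c'
      · rw [if_pos h, if_pos h.symm]
      · rw [if_neg h, if_neg (fun h' => h h'.symm)])
    rw [if_pos (by omega : c + 1 < k)] at P1
    rw [if_neg (by omega : ¬ (c' < c ∧ c + 1 < k)), Nat.add_zero] at P2
    refine ⟨_, pl_le P2, P2, ?_⟩
    have e : 4 * wt W + 3 + 1 + (if c < c' ∧ c' + 1 < k then 1 else 0) =
        4 * wt W + 3 + (if c' + 1 < k then 1 else 0) + 1 := by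
      by_cases h : c' + 1 < k
      · rw [if_pos ⟨hcc, h⟩, if_pos h]
      · rw [if_neg (fun h' => h h'.2), if_neg h]
    rw [← e]
    exact P1
  rcases lt_or_gt_of_ne h12 with h | h
  · exact key' c₁ c₂ h1 h2 h hb1' hb2' hWW
  · exact key' c₂ c₁ h2 h1 h hb2' hb1' (by
      intro i hi
      rw [hWW i hi]
      by_cases h : i = c₁ ∨ i = c₂
      · rw [if_pos h, if_pos h.symm]
      · rw [if_neg h, if_neg (fun h' => h h'.symm)])

theorem pdn (hPER : PerStmt) (hTRA : TraStmt) (hSRV : SrvStmt) : PdnStmt := by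
  intro V _ _ H X k p j ε K W W' c₁ c₂ hk hW hW' h1 h2 h12 hj hp hP hb1 hb2 hWW
  obtain ⟨-, hb1'⟩ := getD_of_true hb1
  obtain ⟨-, hb2'⟩ := getD_of_true hb2
  have hsup : ∀ m₁ m₂ : List Bool, m₁.length + m₂.length + 2 = k → wt m₁ + wt m₂ = wt W →
      Sup H X k ε K (m₂ ++ true :: m₁ ++ [true]).tail (m₂ ++ true :: m₁ ++ (!true) :: m₂)
        ((!true) :: m₁ ++ (!true) :: m₂).dropLast := by
    intro m₁ m₂ hl hw
    have h3 := hSRV V H X k ε K _ _ _ (hP m₁.reverse m₂.reverse
      (by rw [List.length_reverse, List.length_reverse]; exact hl)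
      (by rw [wt_reverse, wt_reverse]; omega))
    have e1 : ((true :: m₁.reverse ++ true :: m₂.reverse).dropLast).reverse =
        (m₂ ++ true :: m₁ ++ [true]).tail := by
      rw [← List.tail_reverse]
      simp
    have e2 : (m₂.reverse ++ false :: m₁.reverse ++ true :: m₂.reverse).reverse =
        m₂ ++ true :: m₁ ++ (!true) :: m₂ := by
      simp
    have e3 : ((m₂.reverse ++ false :: m₁.reverse ++ [false]).tail).reverse =
        ((!true) :: m₁ ++ (!true) :: m₂).dropLast := by
      rw [← List.dropLast_reverse]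
      simp
    rw [e1, e2, e3] at h3
    exact h3
  obtain ⟨d, m₂, hd1, hdk, hm2, hw1, hw2, hpl⟩ := gen hPER hTRA V H X k p ε K true W' W c₁ c₂
    (wt W) hW' hW h1 h2 h12 (by rw [hWW c₁ h1, if_pos (Or.inl rfl)])
    (by rw [hWW c₂ h2, if_pos (Or.inr rfl)]) (by
      intro i hi
      rw [hWW i hi]
      by_cases h : i = c₁ ∨ i = c₂
      · rw [if_pos h]
        rcases h with h | h
        · rw [h, hb1']; rfl
        · rw [h, hb2']; rfl
      · rw [if_neg h, if_neg h])
    (Or.inr (by rw [show (!true) = false from rfl, wt_false, Nat.mul_zero, Nat.add_zero])) (Or.inr hp) hsup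
  exact ⟨_, pl_le hpl, hpl⟩

end Pool.Agent.KK.H60W
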